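import Pool.Agent.Helper28.POSB.Basins

/-!
# The law of the least positive point of the orbit

`MinAt e` is the set of the integers `n` such that `e` is the least positive point of the `T`-orbit of `n`. It has a natural density
`p (e)`; `p (e) ≥ c / e` if `e ≥ 1` is not dead and has no positive iterate below itself, and `p (e) = 0` otherwise; the
numbers `p (e)` add up to `1`, and their sum over `e > z` is at most `C z ^ (-κ)`.
-/

set_option autoImplicit false

namespace Pool.Agent.Helper30.PD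

open Filter Topology Pool.Agent.Helper68.Moeller Pool.Agent.Helper52.Tao Pool.Agent.Helper8.ND
  Pool.Agent.Helper91 Pool.Agent.Helper8 Pool.Agent.Helper28

variable {d m : ℕ} {r : ℤ → ℤ}

/-- `e` is the least positive point of the orbit. -/
def MinAt (d m : ℕ) (r : ℤ → ℤ) (e : ℤ) : Set ℤ := {n : ℤ | IsLeast {y : ℤ | 0 < y ∧ ∃ t : ℕ, (T d m r)^[t] n = y} e}

/-- No positive iterate of `e` is below `e`. -/
def Low (d m : ℕ) (r : ℤ → ℤ) (e : ℤ) : Prop := 0 < e ∧ ∀ t : ℕ, 0 < (T d m r)^[t] e → e ≤ (T d m r)^[t] e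

theorem tinv_mono {G : Set ℤ} {z z' : ℝ} (hG : TInv d m r G z) (hz : z ≤ z') : TInv d m r G z' :=
  fun n hn => hG n (lt_of_le_of_lt hz hn)

theorem tinv_MinAt (e : ℤ) : TInv d m r (MinAt d m r e) e := by
  intro n hn
  have hne : e < n := by exact_mod_cast hn
  have key : ∀ y : ℤ, y ≠ n → ((∃ t : ℕ, (T d m r)^[t] n = y) ↔ ∃ t : ℕ, (T d m r)^[t] (T d m r n) = y) := by
    intro y hy
    constructor
    · rintro ⟨t, ht⟩
      rcases t with _ | t
      · exact absurd ht.symm hy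
      · exact ⟨t, by rwa [Function.iterate_succ_apply] at ht⟩
    · rintro ⟨t, ht⟩
      exact ⟨t + 1, by rwa [Function.iterate_succ_apply]⟩
  constructor
  · rintro ⟨⟨he, h1⟩, h2⟩
    refine ⟨⟨he, (key e (by omega)).1 h1⟩, ?_⟩
    rintro y ⟨hy, t, ht⟩
    exact h2 ⟨hy, t + 1, by rwa [Function.iterate_succ_apply]⟩
  · rintro ⟨⟨he, h1⟩, h2⟩
    refine ⟨⟨he, (key e (by omega)).2 h1⟩, ?_⟩
    rintro y ⟨hy, h3⟩
    by_cases hyn : y = n
    · omega
    · exact h2 ⟨hy, (key y hyn).1 h3⟩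

theorem MinAt_disjoint {e e' : ℤ} (h : e ≠ e') : Disjoint (MinAt d m r e) (MinAt d m r e') := by
  rw [Set.disjoint_left]
  intro n hn hn'
  exact h (hn.unique hn')

theorem MinAt_low {e n : ℤ} (hn : n ∈ MinAt d m r e) : Low d m r e := by
  obtain ⟨⟨he, t, ht⟩, h2⟩ := hn
  refine ⟨he, fun s hs => h2 ⟨hs, s + t, ?_⟩⟩
  rw [Function.iterate_add_apply, ht]

theorem MinAt_empty {e : ℤ} (h : ¬ Low d m r e) : MinAt d m r e = ∅ := by
  ext n
  constructor
  · intro hn
    exact absurd (MinAt_low hn) h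
  · intro hn
    exact absurd hn (Set.notMem_empty n)

theorem MinAt_sub (e : ℤ) : MinAt d m r e ⊆ PL.Pr d m r e := by
  intro n hn
  exact hn.1.2

/-- The orbit of a positive integer has a least positive point. -/
theorem exists_min {n : ℤ} (hn : 0 < n) : ∃ e : ℤ, n ∈ MinAt d m r e := by
  classical
  have hne : ∃ k : ℕ, 0 < (k : ℤ) ∧ ∃ t : ℕ, (T d m r)^[t] n = k :=
    ⟨n.toNat, by rw [Int.toNat_of_nonneg hn.le]; exact hn, 0, by rw [Int.toNat_of_nonneg hn.le]; rfl⟩
  refine ⟨(Nat.find hne : ℤ), Nat.find_spec hne, ?_⟩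
  rintro y ⟨hy, t, ht⟩
  have h1 : Nat.find hne ≤ y.toNat := Nat.find_min' hne ⟨by omega, t, by rw [Int.toNat_of_nonneg hy.le]; exact ht⟩
  omega

theorem p_nonneg (h : POSB.Std d m r) (e : ℤ) : 0 ≤ PL.dens (MinAt d m r e) := POSB.dens_nonneg h (tinv_MinAt e)

theorem p_zero (h : POSB.Std d m r) {e : ℤ} (he : PL.Dead d m r e ∨ ¬ Low d m r e) : PL.dens (MinAt d m r e) = 0 := by
  rcases he with he | he
  · refine le_antisymm ?_ (p_nonneg h e)
    have h1 := POSB.dens_mono h (tinv_MinAt e) (PL.tinv_Pr d m r e) fun n hn _ => MinAt_sub e hn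
    rwa [PL.dead_dens h.hd h.hdm h.hco h.hr he] at h1
  · rw [MinAt_empty he]
    exact POSB.dens_empty h

/-- The positive step. -/
theorem T_pos (h : POSB.Std d m r) {B : ℤ} (hB0 : 0 ≤ B) (hB : ∀ j : ℤ, 0 < j → j < (d : ℤ) → |r j| ≤ B) {y : ℤ} (hy : B < y) :
    0 < T d m r y := by
  have hm1 : (1 : ℤ) ≤ m := by
    have := h.hdm
    exact_mod_cast (by omega : 1 ≤ m)
  have hd0 : (0 : ℤ) < d := by
    have := h.hd
    exact_mod_cast (by omega : 0 < d)
  by_cases hdv : (d : ℤ) ∣ y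
  · have h4 := d_mul_T_of_dvd (m := m) (r := r) hdv
    by_contra hcon
    push Not at hcon
    nlinarith
  · have h4 := d_mul_T_of_not_dvd h.hr h.hd hdv
    obtain ⟨e1, e2⟩ := emod_pos h.hd hdv
    have e3 := hB _ e1 e2
    rw [abs_le] at e3
    by_contra hcon
    push Not at hcon
    nlinarith

/-- If no positive point of the orbit of `n` is `≤ z` then no point is. -/
theorem all_above (h : POSB.Std d m r) {B : ℤ} (hB0 : 0 ≤ B) (hB : ∀ j : ℤ, 0 < j → j < (d : ℤ) → |r j| ≤ B) {n : ℤ} {z : ℝ}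
    (hz : (B : ℝ) ≤ z) (hn : 0 < n) (hall : ∀ t : ℕ, 0 < (T d m r)^[t] n → z < ((T d m r)^[t] n : ℝ)) (t : ℕ) :
    z < ((T d m r)^[t] n : ℝ) := by
  refine hall t ?_
  induction t with
  | zero => exact hn
  | succ t ih =>
    rw [Function.iterate_succ_apply']
    refine T_pos h hB0 hB ?_
    have h1 := hall t ih
    exact_mod_cast lt_of_le_of_lt hz h1

/-- **The lower bound.** -/
theorem p_lower (h : POSB.Std d m r) : ∃ c : ℝ, 0 < c ∧ ∀ e : ℤ, Low d m r e → ¬ PL.Dead d m r e →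
    c / e ≤ PL.dens (MinAt d m r e) ∧ ∀ x : ℝ, (e : ℝ) ≤ x → c * x / e ≤ cN (MinAt d m r e) x := by
  classical
  obtain ⟨s0, hc1, -⟩ := PRE.dead_mod_all (r := r) h.hd h.hdm h.hco h.hr
  obtain ⟨c, K, hc, hK, hpath⟩ := POS.density_path h.hd h.hdm h.hco h.hw h.hr
  have hd2 := h.hd
  have hd0 : (0 : ℝ) < d := by exact_mod_cast (by omega : 0 < d)
  have hK1 : (1 : ℝ) ≤ K := by exact_mod_cast hK
  have hK0 : (0 : ℝ) < K := by linarith
  -- the exponent
  obtain ⟨k, hk1, hk2⟩ : ∃ k : ℕ, K ≤ (d : ℤ) ^ k ∧ (m : ℤ) ^ s0 ∣ (d : ℤ) ^ k - 1 := by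
    refine ⟨Nat.totient (m ^ s0) * K.toNat, ?_, ?_⟩
    · have hm0 : 0 < m ^ s0 := pow_pos (by have := h.hdm; omega) _
      have hφ : 0 < Nat.totient (m ^ s0) := Nat.totient_pos.2 hm0
      have h1 : K.toNat < d ^ K.toNat := Nat.lt_pow_self (by omega)
      have h2 : d ^ K.toNat ≤ d ^ (Nat.totient (m ^ s0) * K.toNat) :=
        Nat.pow_le_pow_right (by omega) (Nat.le_mul_of_pos_left _ hφ)
      have h3 : (K.toNat : ℤ) ≤ (d : ℤ) ^ (Nat.totient (m ^ s0) * K.toNat) := by exact_mod_cast (h1.le.trans h2)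
      rw [Int.toNat_of_nonneg (by omega)] at h3
      exact h3
    · have hcop : Nat.Coprime d (m ^ s0) := (Nat.Coprime.pow_left s0 h.hco).symm
      have h1 : d ^ (Nat.totient (m ^ s0)) ≡ 1 [MOD m ^ s0] := Nat.ModEq.pow_totient hcop
      have h2 : d ^ (Nat.totient (m ^ s0) * K.toNat) ≡ 1 [MOD m ^ s0] := by
        rw [pow_mul]
        have := h1.pow K.toNat
        rwa [one_pow] at this
      have h3 := (Nat.modEq_iff_dvd.1 h2.symm)
      push_cast at h3
      exact h3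
  have hdk : (0 : ℝ) < (d : ℝ) ^ k := by positivity
  have hdk1 : (1 : ℝ) ≤ (d : ℝ) ^ k := by
    have : (K : ℝ) ≤ (d : ℝ) ^ k := by exact_mod_cast hk1
    linarith
  set c' : ℝ := min c 1 / (d : ℝ) ^ k with hc'
  have hc'0 : 0 < c' := div_pos (lt_min hc one_pos) hdk
  refine ⟨c', hc'0, fun e he hal => ?_⟩
  have he0 : 0 < e := he.1
  have he0' : (0 : ℝ) < e := by exact_mod_cast he0
  set a : ℤ := (d : ℤ) ^ k * e with ha
  have haR : (a : ℝ) = (d : ℝ) ^ k * e := by rw [ha]; push_cast; ring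
  have haal : ¬ PL.Dead d m r a := by
    intro hdead
    apply hal
    refine (hc1 a e ?_).1 hdead
    have : a - e = ((d : ℤ) ^ k - 1) * e := by rw [ha]; ring
    rw [this]
    exact Dvd.dvd.mul_right hk2 e
  have ha1 : 1 ≤ a := by
    have h1 : (1 : ℤ) ≤ (d : ℤ) ^ k := hK.trans hk1
    rw [ha]
    nlinarith
  have haK : (e : ℝ) ≤ (a : ℝ) / K := by
    rw [le_div_iff₀ hK0, haR]
    have h1 : (K : ℝ) ≤ (d : ℝ) ^ k := by exact_mod_cast hk1
    nlinarith
  -- the path from `a` down to `e`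
  have hdown : ∀ j ≤ k, e ≤ (T d m r)^[j] a := by
    intro j hj
    have h1 : a = (d : ℤ) ^ j * ((d : ℤ) ^ (k - j) * e) := by
      rw [ha, ← mul_assoc, ← pow_add]
      congr 2
      omega
    rw [h1, PRE.st_iter_dvd h.hd]
    have h2 : (1 : ℤ) ≤ (d : ℤ) ^ (k - j) := one_le_pow₀ (by omega)
    nlinarith
  have hend : (T d m r)^[k] a = e := by rw [ha, PRE.st_iter_dvd h.hd]
  have hsub : ∀ (X : ℝ), POS.Pth d m r (a / K) a X ⊆ {n : ℤ | n ∈ MinAt d m r e ∧ 0 < n ∧ (n : ℝ) ≤ X} := by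
    rintro X n ⟨⟨t, ht, hp⟩, hn⟩
    refine ⟨⟨⟨he0, k + t, by rw [Function.iterate_add_apply, ht, hend]⟩, ?_⟩, hn⟩
    rintro y ⟨hy, s, hs⟩
    by_cases h1 : s ≤ t
    · have h2 := hp s h1
      rw [hs] at h2
      have h3 : (e : ℝ) ≤ y := haK.trans h2
      exact_mod_cast h3
    · by_cases h4 : s ≤ k + t
      · have h5 : (T d m r)^[s - t] a = y := by
          rw [← ht, ← Function.iterate_add_apply, Nat.sub_add_cancel (by omega)]
          exact hs
        rw [← h5]
        exact hdown _ (by omega)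
      · have h5 : (T d m r)^[s - (k + t)] e = y := by
          rw [← hend, ← ht, ← Function.iterate_add_apply, ← Function.iterate_add_apply]
          have e1 : s - (k + t) + k + t = s := by omega
          rw [e1]
          exact hs
        rw [← h5]
        exact he.2 _ (by rw [h5]; exact hy)
  have hcount : ∀ x : ℝ, (e : ℝ) ≤ x → c' * x / e ≤ cN (MinAt d m r e) x := by
    intro x hx
    rcases le_or_gt (a : ℝ) x with hax | hax
    · have h1 := hpath a x ha1 haal hax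
      have h2 : ((POS.Pth d m r (a / K) a x).ncard : ℝ) ≤ cN (MinAt d m r e) x := by
        unfold cN
        exact_mod_cast Set.ncard_le_ncard (hsub x) (finite_cN _ x)
      refine le_trans ?_ (h1.trans h2)
      rw [hc', haR]
      have h3 : min c 1 / (d : ℝ) ^ k * x / e = min c 1 * (x / ((d : ℝ) ^ k * e)) := by
        field_simp
      rw [h3]
      have hx0 : 0 < x := lt_of_lt_of_le he0' hx
      exact mul_le_mul_of_nonneg_right (min_le_left _ _) (by positivity)
    · have h1 : c' * x / e ≤ 1 := by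
        rw [div_le_one he0', hc', haR] at *
        calc min c 1 / (d : ℝ) ^ k * x ≤ 1 / (d : ℝ) ^ k * ((d : ℝ) ^ k * e) := by
              have hx0 : 0 < x := lt_of_lt_of_le he0' hx
              exact mul_le_mul (div_le_div_of_nonneg_right (min_le_right _ _) hdk.le) hax.le hx0.le (by positivity)
          _ = e := by field_simp
      refine h1.trans ?_
      unfold cN
      have h2 : ({e} : Set ℤ) ⊆ {n : ℤ | n ∈ MinAt d m r e ∧ 0 < n ∧ (n : ℝ) ≤ x} := by
        intro n hn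
        rw [Set.mem_singleton_iff] at hn
        subst hn
        refine ⟨⟨⟨he0, 0, rfl⟩, ?_⟩, he0, hx⟩
        rintro y ⟨hy, t, ht⟩
        have h3 := he.2 t (by rw [ht]; exact hy)
        rwa [ht] at h3
      have h3 := Set.ncard_le_ncard h2 (finite_cN _ x)
      rw [Set.ncard_singleton] at h3
      exact_mod_cast h3
  refine ⟨?_, hcount⟩
  refine POSB.le_dens_of (POSB.tendsto_dens h (tinv_MinAt e)) (X := e) fun x hx => ?_
  refine le_trans (le_of_eq ?_) (hcount x hx)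
  ring

/-- The bound for the orbits which stay `> z`. -/
def StayTail (d m : ℕ) (r : ℤ → ℤ) (κ : ℝ) : Prop := ∃ C : ℝ, 0 < C ∧ ∀ x z : ℝ, 1 ≤ x → 1 ≤ z →
    cN {n : ℤ | ∀ k : ℕ, z < ((T d m r)^[k] n : ℝ)} x ≤ C * x * z ^ (-κ)

/-- finite sums of the masses -/
theorem sum_dens (h : POSB.Std d m r) (F : Finset ℤ) : ∑ e ∈ F, PL.dens (MinAt d m r e) = PL.dens (⋃ e ∈ F, MinAt d m r e) := by
  classical
  set z : ℝ := ∑ e ∈ F, |(e : ℝ)| with hz
  have hzF : ∀ e ∈ F, (e : ℝ) ≤ z := fun e he =>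
    (le_abs_self _).trans (Finset.single_le_sum (f := fun e : ℤ => |(e : ℝ)|) (fun _ _ => abs_nonneg _) he)
  set G : ℤ → Set ℤ := fun e => if e ∈ F then MinAt d m r e else ∅ with hG
  have hGT : ∀ e, TInv d m r (G e) z := by
    intro e
    by_cases he : e ∈ F
    · simp only [hG, if_pos he]
      exact tinv_mono (tinv_MinAt e) (hzF e he)
    · simp only [hG, if_neg he]
      exact fun n _ => Iff.rfl
  have hdis : Pairwise fun i j => Disjoint (G i) (G j) := by
    intro i j hij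
    by_cases hi : i ∈ F
    · by_cases hj : j ∈ F
      · simp only [hG, if_pos hi, if_pos hj]
        exact MinAt_disjoint hij
      · simp only [hG, if_neg hj]
        exact Set.disjoint_empty _
    · simp only [hG, if_neg hi]
      exact Set.empty_disjoint _
  have h1 := POSB.dens_biUnion h F hGT hdis
  have h2 : (⋃ e ∈ F, G e) = ⋃ e ∈ F, MinAt d m r e := by
    refine Set.iUnion₂_congr fun e he => ?_
    simp only [hG, if_pos he]
  have h3 : ∑ e ∈ F, PL.dens (G e) = ∑ e ∈ F, PL.dens (MinAt d m r e) := by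
    refine Finset.sum_congr rfl fun e he => ?_
    simp only [hG, if_pos he]
  rw [h2, h3] at h1
  exact h1.symm

theorem tendsto_union (h : POSB.Std d m r) (F : Finset ℤ) :
    Tendsto (fun x : ℝ => cN (⋃ e ∈ F, MinAt d m r e) x / x) atTop (𝓝 (PL.dens (⋃ e ∈ F, MinAt d m r e))) := by
  refine POSB.tendsto_dens h (z := ∑ e ∈ F, |(e : ℝ)|) (POSB.TInv.biUnion fun e he => ?_)
  exact tinv_mono (tinv_MinAt e)
    ((le_abs_self _).trans (Finset.single_le_sum (f := fun e : ℤ => |(e : ℝ)|) (fun _ _ => abs_nonneg _) he))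

theorem sum_le_one (h : POSB.Std d m r) (F : Finset ℤ) : ∑ e ∈ F, PL.dens (MinAt d m r e) ≤ 1 := by
  rw [sum_dens h]
  have h1 : Tendsto (fun x : ℝ => cN (Set.univ : Set ℤ) x / x) atTop (𝓝 1) := POSB.cN_univ_tendsto fun n _ => Set.mem_univ n
  refine le_of_tendsto_of_tendsto (tendsto_union h F) h1 ?_
  filter_upwards [eventually_gt_atTop 0] with x hx
  exact div_le_div_of_nonneg_right (POSB.cN_mono (fun n _ _ => Set.mem_univ n) x) hx.le

/-- **The tail.** -/
theorem sum_tail (h : POSB.Std d m r) {κ : ℝ} (hκ : 0 < κ) (hst : StayTail d m r κ) : ∃ C : ℝ, 0 < C ∧ ∀ z : ℝ, 1 ≤ z →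
    (∀ F : Finset ℤ, (∀ e ∈ F, z < (e : ℝ)) → ∑ e ∈ F, PL.dens (MinAt d m r e) ≤ C * z ^ (-κ)) ∧
      ∃ F : Finset ℤ, 1 ≤ ∑ e ∈ F, PL.dens (MinAt d m r e) + C * z ^ (-κ) := by
  classical
  obtain ⟨C, hC, hst⟩ := hst
  obtain ⟨B, hB0, hB⟩ := PRE.exists_resid_bound d r
  set B' : ℝ := max (B : ℝ) 1 with hB'
  have hB'1 : 1 ≤ B' := le_max_right _ _
  have hB'B : (B : ℝ) ≤ B' := le_max_left _ _
  have hbig : ∀ z : ℝ, B' ≤ z → (∀ F : Finset ℤ, (∀ e ∈ F, z < (e : ℝ)) → ∑ e ∈ F, PL.dens (MinAt d m r e) ≤ C * z ^ (-κ)) ∧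
      ∃ F : Finset ℤ, 1 ≤ ∑ e ∈ F, PL.dens (MinAt d m r e) + C * z ^ (-κ) := by
    intro z hz
    have hz1 : 1 ≤ z := hB'1.trans hz
    constructor
    · intro F hF
      rw [sum_dens h]
      refine POSB.dens_le_of (tendsto_union h F) (b := C * z ^ (-κ)) (X := 1) fun x hx => ?_
      have h1 : cN (⋃ e ∈ F, MinAt d m r e) x ≤ cN {n : ℤ | ∀ k : ℕ, z < ((T d m r)^[k] n : ℝ)} x := by
        refine POSB.cN_mono (fun n hn hn0 => ?_) x
        simp only [Set.mem_iUnion] at hn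
        obtain ⟨e, he, hn⟩ := hn
        refine all_above h hB0 hB (hB'B.trans hz) hn0 fun t ht => ?_
        have h2 : e ≤ (T d m r)^[t] n := hn.2 ⟨ht, t, rfl⟩
        exact lt_of_lt_of_le (hF e he) (by exact_mod_cast h2)
      refine h1.trans ((hst x z hx hz1).trans (le_of_eq ?_))
      ring
    · refine ⟨Finset.Icc 1 ⌊z⌋, ?_⟩
      rw [sum_dens h]
      have h1 : Tendsto (fun x : ℝ => cN (Set.univ : Set ℤ) x / x) atTop (𝓝 1) := POSB.cN_univ_tendsto fun n _ => Set.mem_univ n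
      have h2 : Tendsto (fun x : ℝ => cN (⋃ e ∈ Finset.Icc 1 ⌊z⌋, MinAt d m r e) x / x + C * z ^ (-κ)) atTop
          (𝓝 (PL.dens (⋃ e ∈ Finset.Icc 1 ⌊z⌋, MinAt d m r e) + C * z ^ (-κ))) := (tendsto_union h _).add tendsto_const_nhds
      refine le_of_tendsto_of_tendsto h1 h2 ?_
      filter_upwards [eventually_ge_atTop 1] with x hx
      have hx0 : 0 < x := by linarith
      have h3 : cN (Set.univ : Set ℤ) x ≤ cN ((⋃ e ∈ Finset.Icc 1 ⌊z⌋, MinAt d m r e) ∪ {n : ℤ | ∀ k : ℕ, z < ((T d m r)^[k] n : ℝ)}) x := by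
        refine POSB.cN_mono (fun n _ hn0 => ?_) x
        obtain ⟨e, he⟩ := exists_min (d := d) (m := m) (r := r) hn0
        have he0 : 0 < e := he.1.1
        by_cases hez : (e : ℝ) ≤ z
        · left
          simp only [Set.mem_iUnion]
          exact ⟨e, Finset.mem_Icc.2 ⟨by omega, Int.le_floor.2 hez⟩, he⟩
        · right
          push Not at hez
          refine all_above h hB0 hB (hB'B.trans hz) hn0 fun t ht => ?_
          have h4 : e ≤ (T d m r)^[t] n := he.2 ⟨ht, t, rfl⟩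
          exact lt_of_lt_of_le hez (by exact_mod_cast h4)
      have h4 := POSB.cN_union_le (⋃ e ∈ Finset.Icc 1 ⌊z⌋, MinAt d m r e) {n : ℤ | ∀ k : ℕ, z < ((T d m r)^[k] n : ℝ)} x
      have h5 := hst x z hx hz1
      rw [div_add' _ _ _ hx0.ne', div_le_div_iff_of_pos_right hx0]
      have h6 : C * x * z ^ (-κ) = C * z ^ (-κ) * x := by ring
      linarith
  have hB'κ : 1 ≤ B' ^ κ := Real.one_le_rpow hB'1 hκ.le
  refine ⟨(C + 1) * B' ^ κ, by positivity, fun z hz => ?_⟩
  have hz0 : 0 < z := by linarith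
  have hzκ : 0 < z ^ (-κ) := Real.rpow_pos_of_pos hz0 _
  rcases le_or_gt B' z with hBz | hBz
  · obtain ⟨h1, F, hF⟩ := hbig z hBz
    have hle : C * z ^ (-κ) ≤ (C + 1) * B' ^ κ * z ^ (-κ) := by
      refine mul_le_mul_of_nonneg_right ?_ hzκ.le
      nlinarith
    exact ⟨fun F hF => (h1 F hF).trans hle, F, by linarith⟩
  · have h1 : 1 ≤ B' ^ κ * z ^ (-κ) := by
      rw [Real.rpow_neg hz0.le, ← div_eq_mul_inv, one_le_div (Real.rpow_pos_of_pos hz0 _)]
      exact Real.rpow_le_rpow hz0.le hBz.le hκ.le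
    have h2 : 1 ≤ (C + 1) * B' ^ κ * z ^ (-κ) := by
      have : (C + 1) * B' ^ κ * z ^ (-κ) = B' ^ κ * z ^ (-κ) + C * (B' ^ κ * z ^ (-κ)) := by ring
      rw [this]
      have : 0 ≤ C * (B' ^ κ * z ^ (-κ)) := by positivity
      linarith
    exact ⟨fun F _ => (sum_le_one h F).trans h2, ∅, by rw [Finset.sum_empty, zero_add]; exact h2⟩

/-- **The law.** -/
theorem law (h : POSB.Std d m r) {κ : ℝ} (hκ : 0 < κ) (hst : StayTail d m r κ) :
    HasSum (fun e : ℤ => PL.dens (MinAt d m r e)) 1 ∧ ∃ C : ℝ, 0 < C ∧ ∀ z : ℝ, 1 ≤ z →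
      ∑' e : ℤ, Set.indicator {e : ℤ | z < (e : ℝ)} (fun e => PL.dens (MinAt d m r e)) e ≤ C * z ^ (-κ) := by
  classical
  obtain ⟨C, hC, htail⟩ := sum_tail h hκ hst
  have hsum : HasSum (fun e : ℤ => PL.dens (MinAt d m r e)) 1 := by
    refine hasSum_of_isLUB_of_nonneg _ (p_nonneg h) ⟨?_, ?_⟩
    · rintro _ ⟨F, rfl⟩
      exact sum_le_one h F
    · intro b hb
      have h1 : Tendsto (fun z : ℝ => b + C * z ^ (-κ)) atTop (𝓝 (b + C * 0)) :=
        ((tendsto_rpow_neg_atTop hκ).const_mul C).const_add b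
      rw [mul_zero, add_zero] at h1
      refine ge_of_tendsto h1 ?_
      filter_upwards [eventually_ge_atTop 1] with z hz
      obtain ⟨-, F, hF⟩ := htail z hz
      have h2 : ∑ e ∈ F, PL.dens (MinAt d m r e) ≤ b := hb ⟨F, rfl⟩
      linarith
  refine ⟨hsum, C, hC, fun z hz => ?_⟩
  refine Summable.tsum_le_of_sum_le (hsum.summable.indicator _) fun F => ?_
  have h1 : ∑ e ∈ F, Set.indicator {e : ℤ | z < (e : ℝ)} (fun e => PL.dens (MinAt d m r e)) e =
      ∑ e ∈ F.filter (fun e : ℤ => z < (e : ℝ)), PL.dens (MinAt d m r e) := by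
    rw [Finset.sum_filter]
    exact Finset.sum_congr rfl fun e _ => by simp only [Set.indicator_apply, Set.mem_ofPred_eq]
  rw [h1]
  exact (htail z hz).1 _ fun e he => (Finset.mem_filter.1 he).2

/-- Ancestors of a dead integer are dead. -/
theorem dead_of_dead {a : ℤ} {j : ℕ} (hd : PL.Dead d m r ((T d m r)^[j] a)) : PL.Dead d m r a := by
  obtain ⟨k, hk⟩ := hd
  refine ⟨k, fun n t ht => lt_of_le_of_lt ?_ (hk n (j + t) (by rw [Function.iterate_add_apply, ht]))⟩
  exact Finset.card_le_card (Finset.filter_subset_filter _ (Finset.range_mono (by omega)))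

/-- Large integers: `E` and the minima. -/
theorem mem_E_iff (h : POSB.Std d m r) : ∃ B : ℤ, 0 ≤ B ∧ (∀ j : ℤ, 0 < j → j < (d : ℤ) → |r j| ≤ B) ∧
    ∀ e : ℤ, B < e → (e ∈ E d m r ↔ Low d m r e) := by
  obtain ⟨B, hB0, hB⟩ := PRE.exists_resid_bound d r
  refine ⟨B, hB0, hB, fun e he => ?_⟩
  have hm1 : 1 ≤ m := by
    have := h.hdm
    omega
  have hd2 := h.hd
  constructor
  · intro heE
    exact ⟨by omega, fun t _ => E_T h.hr h.hd hm1 hB heE he t⟩
  · rintro ⟨he0, hlow⟩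
    -- all iterates are `≥ e`
    have hall : ∀ t : ℕ, e ≤ (T d m r)^[t] e := by
      intro t
      induction t with
      | zero => exact le_rfl
      | succ t ih =>
        refine hlow (t + 1) ?_
        rw [Function.iterate_succ_apply']
        exact T_pos h hB0 hB (by omega)
    have hnd : ¬ (d : ℤ) ∣ e := by
      intro hdv
      have h1 := hall 1
      rw [Function.iterate_one] at h1
      have h2 := d_mul_T_of_dvd (m := m) (r := r) hdv
      have h3 : (2 : ℤ) ≤ d := by exact_mod_cast hd2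
      nlinarith
    refine ⟨he0, hnd, fun k hk => ?_⟩
    have key : ∀ i ≤ k, (∃ j : ℕ, (H d m r)^[i] e = (T d m r)^[j] e) ∧ ¬ (d : ℤ) ∣ (H d m r)^[i] e := by
      intro i
      induction i with
      | zero => exact fun _ => ⟨⟨0, rfl⟩, hnd⟩
      | succ i ih =>
        intro hi
        obtain ⟨⟨j, hj⟩, hnd'⟩ := ih (by omega)
        obtain ⟨h1, c, hc⟩ := H_spec h.hr h.hd hnd' (hk i (by omega))
        rw [Function.iterate_succ_apply']
        refine ⟨⟨c + (j + 1), ?_⟩, h1⟩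
        rw [Function.iterate_add_apply, Function.iterate_succ_apply', ← hj, hc, PRE.st_iter_dvd h.hd]
    obtain ⟨⟨j, hj⟩, -⟩ := key k le_rfl
    rw [hj]
    exact hall j

/-- **The law and the exceptional set.** -/
theorem law_E (h : POSB.Std d m r) : (∃ B : ℤ, ∀ e : ℤ, B < e → (0 < PL.dens (MinAt d m r e) ↔ e ∈ E d m r ∧ ¬ PL.Dead d m r e)) ∧
    ((E d m r).Finite ↔ {e : ℤ | 0 < PL.dens (MinAt d m r e)}.Finite) := by
  obtain ⟨B, hB0, hB, hE⟩ := mem_E_iff h
  obtain ⟨c, hc, hlow⟩ := p_lower h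
  have hpos : ∀ e : ℤ, Low d m r e → ¬ PL.Dead d m r e → 0 < PL.dens (MinAt d m r e) := by
    intro e he hal
    have he0 : (0 : ℝ) < e := by exact_mod_cast he.1
    exact lt_of_lt_of_le (by positivity) (hlow e he hal).1
  have hiff : ∀ e : ℤ, B < e → (0 < PL.dens (MinAt d m r e) ↔ e ∈ E d m r ∧ ¬ PL.Dead d m r e) := by
    intro e he
    rw [hE e he]
    constructor
    · intro hp
      constructor
      · by_contra hcon
        rw [p_zero h (Or.inr hcon)] at hp
        exact lt_irrefl _ hp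
      · intro hdead
        rw [p_zero h (Or.inl hdead)] at hp
        exact lt_irrefl _ hp
    · rintro ⟨h1, h2⟩
      exact hpos e h1 h2
  refine ⟨⟨B, hiff⟩, ?_, ?_⟩
  · intro hfin
    refine (hfin.union (Set.finite_Icc (1 : ℤ) B)).subset fun e he => ?_
    have he' : 0 < PL.dens (MinAt d m r e) := he
    by_cases heB : B < e
    · exact Or.inl ((hiff e heB).1 he').1
    · right
      have hl : Low d m r e := by
        by_contra hcon
        rw [p_zero h (Or.inr hcon)] at he'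
        exact lt_irrefl _ he'
      exact ⟨by have := hl.1; omega, by omega⟩
  · intro hfin
    by_contra hinf
    obtain ⟨B', hB'⟩ := hfin.bddAbove
    obtain ⟨p, v, s0, hBase⟩ := POS.exists_Base h.hd h.hdm h.hco h.hw h.hr
    obtain ⟨a, ha1, ha2, ha3⟩ := PRE.alive_above hBase hinf (max (B : ℝ) B')
    obtain ⟨e, he⟩ := exists_min (d := d) (m := m) (r := r) (n := a) (by omega)
    obtain ⟨t, ht⟩ := he.1.2
    have heal : ¬ PL.Dead d m r e := by
      intro hdead
      rw [← ht] at hdead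
      exact ha2 (dead_of_dead hdead)
    have h1 : e ≤ B' := hB' (hpos e (MinAt_low he) heal)
    have h2 := ha3 t
    rw [ht] at h2
    have h3 : (B' : ℝ) < e := lt_of_le_of_lt (le_max_right _ _) h2
    have h4 : B' < e := by exact_mod_cast h3
    omega

end Pool.Agent.Helper30.PD
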