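import Pool.Agent.Helper28.POSB.Basins

/-!
# The size of the sets of predecessors, and the unbounded orbits

`Pr a` is the set of the integers whose orbit contains `a`. Over the bound `PathTail` for the integers whose path to `a` stays
`> z`:
* the density of `Pr a` is at most `C * M ^ (-κ)`, `M` the least positive integer of `Pr a` that is not dead;
* all orbits of positive integers are bounded above iff the density of `Pr a` tends to `0` as `a → ∞`.
-/

set_option autoImplicit false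

namespace Pool.Agent.Helper30.PD

open Filter Topology Pool.Agent.Helper68.Moeller Pool.Agent.Helper52.Tao Pool.Agent.Helper8.ND
  Pool.Agent.Helper91 Pool.Agent.Helper8 Pool.Agent.Helper28

variable {d m : ℕ} {r : ℤ → ℤ}

/-- The integers whose path to `a` stays `> z`. -/
def Path (d m : ℕ) (r : ℤ → ℤ) (a : ℤ) (z : ℝ) : Set ℤ := {n : ℤ | ∃ t : ℕ, (T d m r)^[t] n = a ∧ ∀ i ≤ t, z < ((T d m r)^[i] n : ℝ)}

/-- The bound for the paths which stay `> z`. -/
def PathTail (d m : ℕ) (r : ℤ → ℤ) (κ : ℝ) : Prop := ∃ C : ℝ, 0 < C ∧ ∀ (a : ℤ) (z ε : ℝ), 1 ≤ a → 1 ≤ z → 0 < ε →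
  ∀ᶠ x : ℝ in atTop, cN {n : ℤ | ∃ t : ℕ, (T d m r)^[t] n = a ∧ ∀ i ≤ t, z < ((T d m r)^[i] n : ℝ)} x ≤ (C * z ^ (-κ) + ε) * x

/-- The positive integers of `Pr a` that are not dead. -/
def Src (d m : ℕ) (r : ℤ → ℤ) (a : ℤ) : Set ℤ := {b : ℤ | 0 < b ∧ ¬ PL.Dead d m r b ∧ b ∈ PL.Pr d m r a}

theorem exists_least {a : ℤ} (ha : 1 ≤ a) (hal : ¬ PL.Dead d m r a) : ∃ b, IsLeast (Src d m r a) b := by
  have hne : ∃ k : ℕ, (k : ℤ) ∈ Src d m r a := by
    refine ⟨a.toNat, ?_⟩
    rw [Int.toNat_of_nonneg (by omega)]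
    exact ⟨by omega, hal, 0, rfl⟩
  classical
  refine ⟨(Nat.find hne : ℤ), Nat.find_spec hne, fun b hb => ?_⟩
  have hb0 : 0 < b := hb.1
  have h1 : Nat.find hne ≤ b.toNat := Nat.find_min' hne (by rw [Int.toNat_of_nonneg (by omega)]; exact hb)
  omega

/-- The first point `≤ z` of a path to `a`. -/
theorem first_point (h : POSB.Std d m r) : ∃ B : ℝ, 1 ≤ B ∧ ∀ (a : ℤ) (z : ℝ), B ≤ z → ∀ n ∈ PL.Pr d m r a, 0 < n →
    (∃ b : ℤ, 0 < b ∧ (b : ℝ) ≤ z ∧ b ∈ PL.Pr d m r a ∧ n ∈ PL.Pr d m r b) ∨ n ∈ Path d m r a z := by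
  obtain ⟨B, hB0, hB⟩ := Pool.Agent.Helper8.PRE.exists_resid_bound d r
  have hB0' : (0 : ℝ) ≤ B := by exact_mod_cast hB0
  refine ⟨B + 1, by linarith, fun a z hz n hn hn0 => ?_⟩
  obtain ⟨t, ht⟩ := hn
  by_cases hk : ∀ i ≤ t, z < ((T d m r)^[i] n : ℝ)
  · exact Or.inr ⟨t, ht, hk⟩
  · left
    push Not at hk
    classical
    obtain ⟨k, hk0, hk1, hk2⟩ : ∃ k : ℕ, k ≤ t ∧ ((T d m r)^[k] n : ℝ) ≤ z ∧
        ∀ i < k, z < ((T d m r)^[i] n : ℝ) := by
      refine ⟨Nat.find hk, (Nat.find_spec hk).1, (Nat.find_spec hk).2, fun i hi => ?_⟩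
      have := Nat.find_min hk hi
      push Not at this
      exact this (by have := (Nat.find_spec hk).1; omega)
    -- the orbit up to `k` is positive
    have key : ∀ i ≤ k, 0 < (T d m r)^[i] n := by
      intro i
      induction i with
      | zero => exact fun _ => hn0
      | succ i ih =>
        intro hi
        have h1 := ih (by omega)
        have h3 := hk2 i (by omega)
        rw [Function.iterate_succ_apply']
        have hlt : (B : ℝ) < ((T d m r)^[i] n : ℝ) := by linarith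
        have hlt' : B < (T d m r)^[i] n := by exact_mod_cast hlt
        have hm1 : (1 : ℤ) ≤ m := by
          have := h.hdm
          exact_mod_cast (by omega : 1 ≤ m)
        have hd0 : (0 : ℤ) < d := by
          have := h.hd
          exact_mod_cast (by omega : 0 < d)
        by_cases hdv : (d : ℤ) ∣ (T d m r)^[i] n
        · have h4 := d_mul_T_of_dvd (m := m) (r := r) hdv
          by_contra hcon
          push Not at hcon
          nlinarith
        · have h4 := d_mul_T_of_not_dvd h.hr h.hd hdv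
          obtain ⟨e1, e2⟩ := emod_pos h.hd hdv
          have e3 := hB _ e1 e2
          rw [abs_le] at e3
          by_contra hcon
          push Not at hcon
          nlinarith
    refine ⟨(T d m r)^[k] n, key k le_rfl, hk1, ⟨t - k, ?_⟩, k, rfl⟩
    rw [← Function.iterate_add_apply]
    have e : t - k + k = t := by omega
    rw [e]
    exact ht

theorem dens_Pr_le_one (h : POSB.Std d m r) (a : ℤ) : PL.dens (PL.Pr d m r a) ≤ 1 := by
  have h1 : Tendsto (fun x : ℝ => cN (Set.univ : Set ℤ) x / x) atTop (𝓝 1) := POSB.cN_univ_tendsto fun n _ => Set.mem_univ n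
  refine le_of_tendsto_of_tendsto (POSB.tendsto_dens h (PL.tinv_Pr d m r a)) h1 ?_
  filter_upwards [eventually_gt_atTop 0] with x hx
  exact div_le_div_of_nonneg_right (POSB.cN_mono (fun n _ _ => Set.mem_univ n) x) hx.le

/-- **The upper bound.** -/
theorem size_upper (h : POSB.Std d m r) {κ : ℝ} (hκ : 0 < κ) (hpt : PathTail d m r κ) : ∃ C : ℝ, 0 < C ∧ ∀ a b : ℤ, 1 ≤ a →
    IsLeast (Src d m r a) b → PL.dens (PL.Pr d m r a) ≤ C * (b : ℝ) ^ (-κ) := by
  classical
  obtain ⟨C, hC, hpt⟩ := hpt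
  obtain ⟨B, hB1, hfp⟩ := first_point h
  -- the bound for `z < b`
  have hmain : ∀ (a b : ℤ) (z : ℝ), 1 ≤ a → IsLeast (Src d m r a) b → B ≤ z → z < b → PL.dens (PL.Pr d m r a) ≤ C * z ^ (-κ) := by
    intro a b z ha hb hBz hzb
    have hz1 : 1 ≤ z := hB1.trans hBz
    refine le_of_forall_pos_le_add fun ε hε => ?_
    set F : Finset ℤ := (Finset.Icc (1 : ℤ) ⌊z⌋).filter (fun b => b ∈ PL.Pr d m r a) with hF
    have hsum : Tendsto (fun x : ℝ => ∑ b ∈ F, cN (PL.Pr d m r b) x / x) atTop (𝓝 0) := by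
      have e : (0 : ℝ) = ∑ b ∈ F, (0 : ℝ) := by simp
      rw [e]
      refine tendsto_finsetSum F fun b' hb' => ?_
      have h1 := Finset.mem_filter.1 hb'
      have h2 := Finset.mem_Icc.1 h1.1
      have h3 : PL.Dead d m r b' := by
        by_contra hal
        have h4 : b ≤ b' := hb.2 ⟨by omega, hal, h1.2⟩
        have h5 : (b' : ℝ) ≤ z := Int.le_floor.1 h2.2
        have h6 : (b : ℝ) ≤ b' := by exact_mod_cast h4
        linarith
      have h4 := PL.dead_dens h.hd h.hdm h.hco h.hr h3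
      have h5 := POSB.tendsto_dens h (PL.tinv_Pr d m r b')
      rw [h4] at h5
      exact h5
    have hub : Tendsto (fun x : ℝ => ∑ b ∈ F, cN (PL.Pr d m r b) x / x + (C * z ^ (-κ) + ε)) atTop
        (𝓝 (0 + (C * z ^ (-κ) + ε))) := hsum.add tendsto_const_nhds
    rw [zero_add] at hub
    refine le_of_tendsto_of_tendsto (POSB.tendsto_dens h (PL.tinv_Pr d m r a)) hub ?_
    filter_upwards [eventually_ge_atTop 1, hpt a z ε ha hz1 hε] with x hx hpx
    have hx0 : 0 < x := by linarith
    have h1 : cN (PL.Pr d m r a) x ≤ cN ((⋃ b ∈ F, PL.Pr d m r b) ∪ Path d m r a z) x := by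
      refine POSB.cN_mono (fun n hn hn0 => ?_) x
      rcases hfp a z hBz n hn hn0 with ⟨b', hb0, hbz, hba, hnb⟩ | h2
      · left
        simp only [Set.mem_iUnion]
        refine ⟨b', ?_, hnb⟩
        rw [hF, Finset.mem_filter, Finset.mem_Icc]
        exact ⟨⟨hb0, Int.le_floor.2 hbz⟩, hba⟩
      · exact Or.inr h2
    have h2 := POSB.cN_union_le (⋃ b ∈ F, PL.Pr d m r b) (Path d m r a z) x
    have h3 := POSB.cN_biUnion_le F (fun b => PL.Pr d m r b) x
    have h4 : cN (Path d m r a z) x ≤ (C * z ^ (-κ) + ε) * x := hpx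
    rw [← Finset.sum_div, div_add' _ _ _ hx0.ne', div_le_div_iff_of_pos_right hx0]
    linarith
  -- the constant
  have hB0 : 0 < B := by linarith
  refine ⟨(2 * B) ^ κ + C * 2 ^ κ, by positivity, fun a b ha hb => ?_⟩
  have hb0 : 0 < b := hb.1.1
  have hb0' : (0 : ℝ) < b := by exact_mod_cast hb0
  have hbκ : 0 < (b : ℝ) ^ (-κ) := Real.rpow_pos_of_pos hb0' _
  rcases le_or_gt (b : ℝ) (2 * B) with hle | hgt
  · have h1 : 1 ≤ (2 * B) ^ κ * (b : ℝ) ^ (-κ) := by
      rw [Real.rpow_neg hb0'.le, ← div_eq_mul_inv, one_le_div (Real.rpow_pos_of_pos hb0' _)]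
      exact Real.rpow_le_rpow hb0'.le hle hκ.le
    have h2 : 0 ≤ C * 2 ^ κ * (b : ℝ) ^ (-κ) := by positivity
    have h3 := dens_Pr_le_one h a
    have h4 : ((2 * B) ^ κ + C * 2 ^ κ) * (b : ℝ) ^ (-κ) = (2 * B) ^ κ * (b : ℝ) ^ (-κ) + C * 2 ^ κ * (b : ℝ) ^ (-κ) := by ring
    linarith
  · have h1 := hmain a b (b / 2) ha hb (by linarith) (by linarith)
    have h2 : ((b : ℝ) / 2) ^ (-κ) = 2 ^ κ * (b : ℝ) ^ (-κ) := by
      rw [Real.div_rpow hb0'.le (by norm_num), Real.rpow_neg (by norm_num : (0 : ℝ) ≤ 2) κ]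
      field_simp
    rw [h2] at h1
    have h3 : 0 ≤ (2 * B) ^ κ * (b : ℝ) ^ (-κ) := by positivity
    have h4 : ((2 * B) ^ κ + C * 2 ^ κ) * (b : ℝ) ^ (-κ) = (2 * B) ^ κ * (b : ℝ) ^ (-κ) + C * (2 ^ κ * (b : ℝ) ^ (-κ)) := by ring
    linarith

/-- **The lower bound.** -/
theorem size_lower (h : POSB.Std d m r) : ∃ c : ℝ, 0 < c ∧ ∀ a b : ℤ, 1 ≤ a → IsLeast (Src d m r a) b →
    c / b ≤ PL.dens (PL.Pr d m r a) ∧ ∀ x : ℝ, (b : ℝ) ≤ x → c * x / b ≤ cN (PL.Pr d m r a) x := by
  obtain ⟨c, hc, h1⟩ := POS.density_one h.hd h.hdm h.hco h.hw h.hr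
  refine ⟨c, hc, fun a b ha hb => ?_⟩
  obtain ⟨hb0, hbal, s, hs⟩ := hb.1
  have hb0' : (0 : ℝ) < b := by exact_mod_cast hb0
  have hcount : ∀ x : ℝ, (b : ℝ) ≤ x → c * x / b ≤ cN (PL.Pr d m r a) x := by
    intro x hx
    refine (h1 b x (by omega) hbal hx).trans ?_
    have h2 : cN (PL.Pr d m r b) x ≤ cN (PL.Pr d m r a) x := by
      refine POSB.cN_mono (fun n hn _ => ?_) x
      obtain ⟨t, ht⟩ := hn
      exact ⟨s + t, by rw [Function.iterate_add_apply, ht, hs]⟩
    exact h2
  refine ⟨?_, hcount⟩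
  refine POSB.le_dens_of (POSB.tendsto_dens h (PL.tinv_Pr d m r a)) (X := b) fun x hx => ?_
  refine le_trans (le_of_eq ?_) (hcount x hx)
  ring

/-- An orbit which is not bounded above is positive from some time on. -/
theorem unbounded_pos (h : POSB.Std d m r) {n : ℤ} (hn : ¬ ∃ B : ℤ, ∀ k : ℕ, (T d m r)^[k] n ≤ B) :
    ∃ K : ℕ, ∀ k : ℕ, 1 ≤ (T d m r)^[k] ((T d m r)^[K] n) := by
  classical
  obtain ⟨B, hB0, hB⟩ := Pool.Agent.Helper8.PRE.exists_resid_bound d r
  -- the times with a value in `[0, B]` are finitely many, since a value that is taken twice makes the orbit periodic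
  have hper : ∀ i j : ℕ, i < j → (T d m r)^[i] n ≠ (T d m r)^[j] n := by
    intro i j hij e
    apply hn
    -- all values are among the first `j`
    refine ⟨∑ l ∈ Finset.range j, |(T d m r)^[l] n|, fun k => ?_⟩
    have hval : ∃ l < j, (T d m r)^[k] n = (T d m r)^[l] n := by
      induction k using Nat.strong_induction_on with
      | _ k ih =>
        by_cases hk : k < j
        · exact ⟨k, hk, rfl⟩
        · obtain ⟨l, hl, hl'⟩ := ih (k - (j - i)) (by omega)
          refine ⟨l, hl, ?_⟩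
          rw [← hl']
          have e1 : k = (k - j) + j := by omega
          have e2 : k - (j - i) = (k - j) + i := by omega
          rw [e2]
          nth_rw 1 [e1]
          rw [Function.iterate_add_apply, Function.iterate_add_apply, e]
    obtain ⟨l, hl, hl'⟩ := hval
    rw [hl']
    exact (le_abs_self _).trans (Finset.single_le_sum (f := fun l => |(T d m r)^[l] n|) (fun _ _ => abs_nonneg _) (Finset.mem_range.2 hl))
  have hinj : Function.Injective fun k : ℕ => (T d m r)^[k] n := by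
    intro i j e
    rcases lt_trichotomy i j with hij | hij | hij
    · exact absurd e (hper i j hij)
    · exact hij
    · exact absurd e.symm (hper j i hij)
  have hfin : {k : ℕ | (T d m r)^[k] n ∈ Set.Icc (0 : ℤ) B}.Finite :=
    (Set.finite_Icc (0 : ℤ) B).preimage hinj.injOn
  obtain ⟨N, hN⟩ := hfin.bddAbove
  -- a time after `N` with a value `> B`
  obtain ⟨K, hKN, hKB⟩ : ∃ K : ℕ, N < K ∧ B < (T d m r)^[K] n := by
    by_contra hcon
    push Not at hcon
    apply hn
    refine ⟨B + ∑ l ∈ Finset.range (N + 1), |(T d m r)^[l] n|, fun k => ?_⟩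
    have hs : 0 ≤ ∑ l ∈ Finset.range (N + 1), |(T d m r)^[l] n| := Finset.sum_nonneg fun _ _ => abs_nonneg _
    by_cases hk : N < k
    · have := hcon k hk
      omega
    · have h1 : |(T d m r)^[k] n| ≤ ∑ l ∈ Finset.range (N + 1), |(T d m r)^[l] n| :=
        Finset.single_le_sum (f := fun l => |(T d m r)^[l] n|) (fun _ _ => abs_nonneg _) (Finset.mem_range.2 (by omega))
      have h2 := le_abs_self ((T d m r)^[k] n)
      omega
  refine ⟨K, ?_⟩
  have key : ∀ k : ℕ, B < (T d m r)^[k + K] n := by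
    intro k
    induction k with
    | zero => rwa [Nat.zero_add]
    | succ k ih =>
      have e : k + 1 + K = (k + K) + 1 := by omega
      rw [e, Function.iterate_succ_apply']
      set y := (T d m r)^[k + K] n with hy
      have hm1 : (1 : ℤ) ≤ m := by
        have := h.hdm
        exact_mod_cast (by omega : 1 ≤ m)
      have hd0 : (0 : ℤ) < d := by
        have := h.hd
        exact_mod_cast (by omega : 0 < d)
      have hpos : 0 ≤ T d m r y := by
        by_cases hdv : (d : ℤ) ∣ y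
        · have h4 := d_mul_T_of_dvd (m := m) (r := r) hdv
          by_contra hcon
          push Not at hcon
          nlinarith
        · have h4 := d_mul_T_of_not_dvd h.hr h.hd hdv
          obtain ⟨e1, e2⟩ := emod_pos h.hd hdv
          have e3 := hB _ e1 e2
          rw [abs_le] at e3
          by_contra hcon
          push Not at hcon
          nlinarith
      by_contra hcon
      push Not at hcon
      have hmem : (k + K) + 1 ∈ {k : ℕ | (T d m r)^[k] n ∈ Set.Icc (0 : ℤ) B} := by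
        show (T d m r)^[(k + K) + 1] n ∈ Set.Icc (0 : ℤ) B
        rw [Function.iterate_succ_apply']
        exact ⟨hpos, hcon⟩
      have := hN hmem
      omega
  intro k
  rw [← Function.iterate_add_apply]
  have := key k
  omega

/-- **The criterion for the unbounded orbits.** -/
theorem bounded_iff (h : POSB.Std d m r) {κ : ℝ} (hκ : 0 < κ) (hpt : PathTail d m r κ) :
    (∀ n : ℤ, 0 < n → ∃ B : ℤ, ∀ k : ℕ, (T d m r)^[k] n ≤ B) ↔ Tendsto (fun a : ℤ => PL.dens (PL.Pr d m r a)) atTop (𝓝 0) := by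
  classical
  have hnn : ∀ a : ℤ, 0 ≤ PL.dens (PL.Pr d m r a) := fun a => POSB.dens_nonneg h (PL.tinv_Pr d m r a)
  constructor
  · intro hall
    obtain ⟨C, hC, hup⟩ := size_upper h hκ hpt
    choose! Bd hBd using hall
    rw [Metric.tendsto_atTop]
    intro ε hε
    -- the sources of large density are small
    obtain ⟨M, hM⟩ : ∃ M : ℤ, ∀ b : ℤ, M ≤ b → C * (b : ℝ) ^ (-κ) < ε := by
      have h1 : Tendsto (fun b : ℤ => C * (b : ℝ) ^ (-κ)) atTop (𝓝 (C * 0)) :=
        ((tendsto_rpow_neg_atTop hκ).comp tendsto_intCast_atTop_atTop).const_mul C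
      rw [mul_zero] at h1
      exact eventually_atTop.1 (h1.eventually (gt_mem_nhds hε))
    refine ⟨1 + ∑ b ∈ Finset.Icc (1 : ℤ) M, |Bd b|, fun a ha => ?_⟩
    have hs : 0 ≤ ∑ b ∈ Finset.Icc (1 : ℤ) M, |Bd b| := Finset.sum_nonneg fun _ _ => abs_nonneg _
    have ha1 : 1 ≤ a := by omega
    rw [Real.dist_eq, sub_zero, abs_of_nonneg (hnn a)]
    by_cases hal : PL.Dead d m r a
    · rw [PL.dead_dens h.hd h.hdm h.hco h.hr hal]
      exact hε
    · obtain ⟨b, hb⟩ := exists_least ha1 hal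
      refine (hup a b ha1 hb).trans_lt (hM b ?_)
      by_contra hcon
      push Not at hcon
      obtain ⟨hb0, -, t, ht⟩ := hb.1
      have h1 := hBd b hb0 t
      rw [ht] at h1
      have h2 : |Bd b| ≤ ∑ b ∈ Finset.Icc (1 : ℤ) M, |Bd b| :=
        Finset.single_le_sum (f := fun b => |Bd b|) (fun _ _ => abs_nonneg _) (Finset.mem_Icc.2 ⟨by omega, by omega⟩)
      have h3 := le_abs_self (Bd b)
      omega
  · intro hlim n hn0
    by_contra hn
    obtain ⟨K, hK⟩ := unbounded_pos h hn
    obtain ⟨p, v, s0, hBase⟩ := POS.exists_Base h.hd h.hdm h.hco h.hw h.hr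
    obtain ⟨t, ht⟩ := PRE.exists_alive hBase hK
    set b := (T d m r)^[t] ((T d m r)^[K] n) with hb
    have hb1 : 1 ≤ b := hK t
    obtain ⟨c, hc, hp⟩ := POSB.inv_pos h
    obtain ⟨c, hc, hcount⟩ := POS.density_one h.hd h.hdm h.hco h.hw h.hr
    have hb0 : (0 : ℝ) < b := by exact_mod_cast (by omega : 0 < b)
    -- the later points have at least the density of the predecessors of `b`
    have hlow : ∀ k : ℕ, c / b ≤ PL.dens (PL.Pr d m r ((T d m r)^[k] b)) := by
      intro k
      refine POSB.le_dens_of (POSB.tendsto_dens h (PL.tinv_Pr d m r _)) (X := b) fun x hx => ?_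
      refine le_trans (le_of_eq ?_) ((hcount b x hb1 ht hx).trans ?_)
      · ring
      · have h2 : cN (PL.Pr d m r b) x ≤ cN (PL.Pr d m r ((T d m r)^[k] b)) x := by
          refine POSB.cN_mono (fun n' hn' _ => ?_) x
          obtain ⟨s, hs⟩ := hn'
          exact ⟨k + s, by rw [Function.iterate_add_apply, hs]⟩
        exact h2
    have hpos : 0 < c / b := by positivity
    obtain ⟨A, hA⟩ := eventually_atTop.1 (hlim.eventually (gt_mem_nhds hpos))
    -- a later point `≥ A`
    obtain ⟨k, hk⟩ : ∃ k : ℕ, A ≤ (T d m r)^[k] b := by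
      by_contra hcon
      push Not at hcon
      apply hn
      refine ⟨A + |A| + ∑ l ∈ Finset.range (t + K + 1), |(T d m r)^[l] n|, fun j => ?_⟩
      have hs : 0 ≤ ∑ l ∈ Finset.range (t + K + 1), |(T d m r)^[l] n| := Finset.sum_nonneg fun _ _ => abs_nonneg _
      have hAA := neg_abs_le A
      by_cases hj : j ≤ t + K
      · have h1 : |(T d m r)^[j] n| ≤ ∑ l ∈ Finset.range (t + K + 1), |(T d m r)^[l] n| :=
          Finset.single_le_sum (f := fun l => |(T d m r)^[l] n|) (fun _ _ => abs_nonneg _) (Finset.mem_range.2 (by omega))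
        have h2 := le_abs_self ((T d m r)^[j] n)
        omega
      · have h1 := hcon (j - (t + K))
        rw [hb, ← Function.iterate_add_apply, ← Function.iterate_add_apply] at h1
        have e : j - (t + K) + t + K = j := by omega
        have e' : j - (t + K) + (t + K) = j := by omega
        first
          | rw [e] at h1
          | rw [e'] at h1
        have h3 := abs_nonneg A
        omega
    exact absurd (hA _ hk) (not_lt.2 (hlow k))

end Pool.Agent.Helper30.PD
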