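import Pool.Agent.Helper30.PD.MinLaw

/-!
# The orbits which stay large: one exponent beyond the entropy exponent
-/

set_option autoImplicit false

namespace Pool.Agent.Helper30.PD

open Filter Topology Pool.Agent.Helper68.Moeller Pool.Agent.Helper52.Tao Pool.Agent.Helper8.ND
  Pool.Agent.Helper91 Pool.Agent.Helper8 Pool.Agent.Helper28

variable {d m : ℕ}

theorem stay_tail_beyond (hd : 2 ≤ d) (hdm : d < m) (hco : Nat.Coprime m d)
    (hw : (m : ℝ) ≤ (d : ℝ) ^ ((d : ℝ) / ((d : ℝ) - 1))) : ∃ κ₀ : ℝ, 1 - eta d m < κ₀ ∧ ∀ r : ℤ → ℤ, POSB.Std d m r →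
      ∀ κ : ℝ, κ ≤ κ₀ → StayTail d m r κ := by
  obtain ⟨η₁, δ, h1, h2, h3, h4⟩ := Pool.Agent.Helper28.BE.core hd hdm hco hw
  obtain ⟨η₂, h5, h6, h7⟩ := Pool.Agent.Helper28.BE.final_beyond hd hdm hco hw h1 h2
    (by norm_num : (0 : ℝ) < 1 / 400) (by norm_num) h3
  refine ⟨1 - η₂, by linarith, fun r h κ hκ => ?_⟩
  obtain ⟨C, hC, hC'⟩ := h7 r h.hr (h4 r h.hr)
  refine ⟨C, hC, fun x z hx hz => ?_⟩
  have h9 := hC' x z hx hz
  have e : {n : ℤ | n ∈ {n : ℤ | ∀ k : ℕ, z < ((T d m r)^[k] n : ℝ)} ∧ 0 < n ∧ (n : ℝ) ≤ x} =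
      {n : ℤ | 0 < n ∧ (n : ℝ) ≤ x ∧ ∀ k : ℕ, z < ((T d m r)^[k] n : ℝ)} := by
    ext n
    simp only [Set.mem_ofPred_eq]
    tauto
  unfold cN
  rw [e]
  refine h9.trans ?_
  exact mul_le_mul_of_nonneg_left (Real.rpow_le_rpow_of_exponent_le hz (by linarith)) (by positivity)

end Pool.Agent.Helper30.PD
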