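import Pool.Agent.Helper30.PD.Stay

/-!
# The exceptional set is finite if and only if the tail of the law of the orbit minimum is `o (1 / z)`
-/

set_option autoImplicit false

namespace Pool.Agent.Helper30.PD

open Filter Topology Pool.Agent.Helper68.Moeller Pool.Agent.Helper52.Tao Pool.Agent.Helper8.ND
  Pool.Agent.Helper91 Pool.Agent.Helper8 Pool.Agent.Helper28

variable {d m : ℕ} {r : ℤ → ℤ}

theorem finite_iff_tail (h : POSB.Std d m r) {κ : ℝ} (hκ : 0 < κ) (hst : StayTail d m r κ) :
    (E d m r).Finite ↔ Tendsto (fun z : ℝ => z * ∑' e : ℤ, Set.indicator {e : ℤ | z < (e : ℝ)} (fun e => PL.dens (MinAt d m r e)) e)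
      atTop (𝓝 0) := by
  classical
  obtain ⟨hsum, -⟩ := law h hκ hst
  obtain ⟨c, hc, hlow⟩ := p_lower h
  rw [(law_E h).2]
  constructor
  · intro hfin
    obtain ⟨B, hB⟩ := hfin.bddAbove
    refine tendsto_const_nhds.congr' ?_
    filter_upwards [eventually_ge_atTop (B : ℝ)] with z hz
    have h1 : ∀ e : ℤ, Set.indicator {e : ℤ | z < (e : ℝ)} (fun e => PL.dens (MinAt d m r e)) e = 0 := by
      intro e
      by_cases he : z < (e : ℝ)
      · rw [Set.indicator_of_mem (show e ∈ {e : ℤ | z < (e : ℝ)} from he)]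
        refine le_antisymm ?_ (p_nonneg h e)
        by_contra hcon
        push Not at hcon
        have h2 : e ≤ B := hB hcon
        have h3 : (e : ℝ) ≤ B := by exact_mod_cast h2
        linarith
      · exact Set.indicator_of_notMem (show e ∉ {e : ℤ | z < (e : ℝ)} from he) _
    simp only [h1, tsum_zero, mul_zero]
  · intro hlim
    by_contra hinf
    have hc2 : 0 < c / 2 := by positivity
    obtain ⟨Z, hZ⟩ := eventually_atTop.1 (hlim.eventually (gt_mem_nhds hc2))
    -- a large atom
    obtain ⟨e, he1, he2⟩ : ∃ e : ℤ, 0 < PL.dens (MinAt d m r e) ∧ 2 * max Z 1 < (e : ℝ) := by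
      by_contra hcon
      push Not at hcon
      refine hinf ((Set.finite_Icc (1 : ℤ) ⌊2 * max Z 1⌋).subset fun e he => ?_)
      have he' : 0 < PL.dens (MinAt d m r e) := he
      have hl : Low d m r e := by
        by_contra hl
        rw [p_zero h (Or.inr hl)] at he'
        exact lt_irrefl _ he'
      exact ⟨by have := hl.1; omega, Int.le_floor.2 (hcon e he')⟩
    have hZ1 : Z ≤ max Z 1 := le_max_left _ _
    have hZ2 : 1 ≤ max Z 1 := le_max_right _ _
    have hl : Low d m r e := by
      by_contra hl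
      rw [p_zero h (Or.inr hl)] at he1
      exact lt_irrefl _ he1
    have hal : ¬ PL.Dead d m r e := by
      intro hd
      rw [p_zero h (Or.inl hd)] at he1
      exact lt_irrefl _ he1
    have he0 : (0 : ℝ) < e := by linarith
    have h1 := hZ ((e : ℝ) / 2) (by linarith)
    have h2 := (hlow e hl hal).1
    have h3 : PL.dens (MinAt d m r e) ≤ ∑' e' : ℤ, Set.indicator {e' : ℤ | (e : ℝ) / 2 < (e' : ℝ)} (fun e => PL.dens (MinAt d m r e)) e' := by
      have h4 := Summable.le_tsum (hsum.summable.indicator {e' : ℤ | (e : ℝ) / 2 < (e' : ℝ)}) e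
        (fun j _ => Set.indicator_nonneg (fun e _ => p_nonneg h e) j)
      rwa [Set.indicator_of_mem (show e ∈ {e' : ℤ | (e : ℝ) / 2 < (e' : ℝ)} from by
        show (e : ℝ) / 2 < (e : ℝ)
        linarith)] at h4
    have h5 : c / 2 ≤ (e : ℝ) / 2 * (c / e) := by
      field_simp
      exact le_rfl
    have h6 : (e : ℝ) / 2 * (c / e) ≤ (e : ℝ) / 2 * ∑' e' : ℤ, Set.indicator {e' : ℤ | (e : ℝ) / 2 < (e' : ℝ)} (fun e => PL.dens (MinAt d m r e)) e' :=
      mul_le_mul_of_nonneg_left (h2.trans h3) (by linarith)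
    linarith

end Pool.Agent.Helper30.PD
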